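import Pool.Agent.W536.LM.Stm

/-!
# Nonvanishing at the eta branches (part LM-ETA)
-/

set_option autoImplicit false

open Polynomial W536.LM

namespace Pool.Agent.W753.LM

lemma path_end (P : Par ℂ) (hND : ND P) (hP : S_PROP) (w0 : ℂ) (n : ℕ) : ∀ v : Option ℂ,
    Path P w0 n v → ∃ v5, Rel P.L (P.m 5) (P.m 0) (P.e 5) v5 (some w0) ∧
      ∀ K : Subfield ℂ, ACl K → P.L ∈ K → (∀ k, P.m k ∈ K) →
        (∀ i, 5 - n ≤ i → i ≤ 4 → P.e i ∈ K) → (InF K v ↔ InF K v5) := by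
  induction n with
  | zero =>
    intro v hv
    exact ⟨v, hv, fun K _ _ _ _ => Iff.rfl⟩
  | succ n ih =>
    rintro v ⟨v', h1, h2⟩
    obtain ⟨v5, h3, h4⟩ := ih v' h2
    refine ⟨v5, h3, ?_⟩
    intro K hK hL hm he
    rw [← h4 K hK hL hm (fun i hi hi' => he i (by omega) hi')]
    exact hP K P.L _ _ _ hK hL (hm _) (hm _) (he _ (by omega) (by omega)) hND.1 (hND.2.1 _)
      (hND.2.1 _) (hND.2.2 _) (hND.2.2 _) v v' h1

theorem t_ETA (hZ : S_Z) (hP : S_PROP) : S_ETA := by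
  intro F P hND hF n w0 hn hw0 hG
  obtain ⟨v5, h5, h6⟩ := path_end P hND hP w0 n _ (hZ P hND n _ w0 hG)
  obtain ⟨hA1, hL1, hm1, he1, hne1⟩ := hF (4 - n) (by omega)
  obtain ⟨hA5, hL5, hm5, he5, hne5⟩ := hF 5 le_rfl
  have hden : P.m (4 - n) - P.L ≠ 0 := sub_ne_zero.2 (hND.2.2 _)
  have h7 := (h6 (F 5) hA5 hL5 hm5 (fun i _ hi => he5 i (by omega) (by omega))).1
    (show (P.e (4 - n) - P.m (5 - n)) / (P.m (4 - n) - P.L) ∈ F 5 from
      (F 5).div_mem ((F 5).sub_mem (he5 _ (by omega) (by omega)) (hm5 _))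
        ((F 5).sub_mem (hm5 _) hL5))
  have h8 : ¬ InF (F (4 - n)) v5 := by
    rw [← h6 (F (4 - n)) hA1 hL1 hm1 (fun i hi hi' => he1 i (by omega) (by omega))]
    intro h9
    apply hne1
    have h10 : P.e (4 - n) = (P.e (4 - n) - P.m (5 - n)) / (P.m (4 - n) - P.L) *
        (P.m (4 - n) - P.L) + P.m (5 - n) := by
      rw [div_mul_cancel₀ _ hden]
      ring
    rw [h10]
    exact (F _).add_mem ((F _).mul_mem h9 ((F _).sub_mem (hm1 _) hL1)) (hm1 _)
  rcases v5 with _ | z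
  · exact h8 trivial
  · have hz : z ∉ F (4 - n) := h8
    have hz5 : z ∈ F 5 := h7
    have hz0 : z ≠ 0 := fun h => hz (h ▸ (F (4 - n)).zero_mem)
    have h11 : E0 P.L (P.m 5) (P.m 0) (P.e 5) z w0 = 0 := h5
    unfold E0 at h11
    rcases hw0 with rfl | rfl
    · have h12 : (z - 1) * (P.m 0 * z) = 0 := by linear_combination h11
      rcases mul_eq_zero.1 h12 with h13 | h13
      · rw [sub_eq_zero] at h13
        exact hz (h13 ▸ (F (4 - n)).one_mem)
      · exact (mul_ne_zero (hND.2.1 0) hz0) h13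
    · have h12 : z * (P.m 0 * z + P.m 5 - P.L * z - P.e 5) = 0 := by linear_combination h11
      rcases mul_eq_zero.1 h12 with h13 | h13
      · exact hz0 h13
      · apply hne5
        have h14 : P.e 5 = P.m 0 * z + P.m 5 - P.L * z := by linear_combination -h13
        rw [h14]
        exact (F 5).sub_mem ((F 5).add_mem ((F 5).mul_mem (hm5 _) hz5) (hm5 _))
          ((F 5).mul_mem hL5 hz5)

end Pool.Agent.W753.LM
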